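import Pool.Agent.Lib.MP_9f2731_nt.GP.Defs
import Pool.Agent.Lib.MP_aa9ae4_nt.Mertens

/-!
MP_9f2731_nt, GP/Rom (helper78): RomPStmt (Romanoff type mean value of the singular factor) and MomStmt (moments of the
majorant). Rules: a module `X.lean` in this directory starts with `import Pool.Agent.Lib.MP_9f2731_nt.GP.Rom.Spec`,
`namespace Pool.Agent.Lib.MP_9f2731_nt.GP.Rom`, `open Finset` and proves the theorem `pX`. Statements under Uses are
hypotheses, in this order. All modules are independent.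
-/

namespace Pool.Agent.Lib.MP_9f2731_nt.GP.Rom

open Finset

/-- product of the primes in (w, Z] -/
def PZ (w Z : ℕ) : ℕ := ∏ p ∈ (Ioc w Z).filter Nat.Prime, p

/-- number of prime factors -/
def om (D : ℕ) : ℕ := D.primeFactors.card

/-- Module Exp. Uses: nothing. Proof. ∏_{p ∈ P} (1 + C/p) = ∑_{S ⊆ P} ∏_{p ∈ S} C/p (Finset.prod_one_add or prod_add), and S ↦ ∏ S is a bijection from the subsets of {p prime : p | n, w < p ≤ Z} onto the divisors D of PZ w Z with D | n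
(PZ w Z is squarefree with the prime factors in (w,Z]; a squarefree D divides n iff all its prime factors do; inverse D ↦ primeFactors). The second statement is the case of all primes in (w,Z] (without the condition D | n). -/
def ExpStmt : Prop :=
  (∀ (C : ℝ) (w Z n : ℕ), n ≠ 0 →
    ∏ p ∈ n.primeFactors.filter (fun p => w < p ∧ p ≤ Z), (1 + C / (p : ℝ)) =
      ∑ D ∈ (PZ w Z).divisors.filter (fun D => D ∣ n), C ^ om D / (D : ℝ)) ∧
  ∀ (C : ℝ) (w Z : ℕ),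
    ∏ p ∈ (Ioc w Z).filter Nat.Prime, (1 + C / (p : ℝ)) =
      ∑ D ∈ (PZ w Z).divisors, C ^ om D / (D : ℝ)

/-- Module Tot. Uses: nothing (sum_inv_primes_le in Lib/MP_aa9ae4_nt/Mertens.lean is proved and imported by the Spec). Proof. 1 + C/p ≤ exp(C/p), ∑_{p ≤ Z} 1/p ≤ log(log Z + 1) + C0, so the product is ≤ exp(C C0) (1 + log Z)^C. (Primes in (w,Z] are primes in Icc 1 Z.) -/
def TotStmt : Prop :=
  ∀ C : ℝ, 0 < C → ∃ B : ℝ, 0 < B ∧ ∀ w Z : ℕ, 2 ≤ Z →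
    ∏ p ∈ (Ioc w Z).filter Nat.Prime, (1 + C / (p : ℝ)) ≤ B * (1 + Real.log Z) ^ C

/-- Module Ord. Uses: nothing. Proof. D ∣ Nat.dist K1 (K2 q^a) means K1 ≡ K2 q^a mod D. If a ≤ a' are two such numbers then K2 q^a ≡ K2 q^a' and K2, q are units mod D, so q^(a'-a) = 1 in ZMod D and the order divides a' - a (pow_inj_mod / orderOf_dvd_iff_pow_eq_one). A set of
numbers in range N which are pairwise congruent modulo e ≥ 1 has at most N/e + 1 elements. (e = orderOf > 0 because q is a unit of the finite ring ZMod D, D ≥ 1.) -/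
def OrdStmt : Prop :=
  ∀ (q D K1 K2 N : ℕ), 1 ≤ D → Nat.Coprime q D → Nat.Coprime K2 D →
    (((range N).filter (fun a => D ∣ Nat.dist K1 (K2 * q ^ a))).card : ℝ) ≤
      (N : ℝ) / (orderOf ((q : ℕ) : ZMod D)) + 1

/-- Module Rlg. Uses: nothing. Proof. 1 + C/p ≤ exp(C/Z) for p > Z, and the number of prime factors of n is ≤ log n/log 2 (2^(number) ≤ n). -/
def RlgStmt : Prop :=
  ∀ (C : ℝ) (n Z : ℕ), 0 < C → 1 ≤ n → 1 ≤ Z →
    ∏ p ∈ n.primeFactors.filter (fun p => Z < p), (1 + C / (p : ℝ)) ≤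
      Real.exp (C * (Real.log n / Real.log 2) / Z)

/-- Module Rmf (Romanoff, Erdos). Uses: Exp, Tot, Rlg. Proof. w ≥ q, so all D in the sum are prime to q; e(D) = orderOf q mod D ≥ 1, D | q^e(D) - 1. For t ≥ 1 let E(t) = the sum of C^om D/D over the D | PZ w Z with e(D) ≤ t. These D divide Q_t = ∏_{j=1}^t (q^j - 1) and are squarefree, so
(Exp for n = Q_t and Z' = max of Z; all their prime factors divide Q_t) E(t) ≤ ∏_{p | Q_t} (1 + C/p). Split at y = t^2 + 2: primes ≤ y: ≤ B (1 + log y)^C (Tot); primes > y: ≤ exp(C (log Q_t/log 2)/y) ≤ exp(C log q/log 2) since log Q_t ≤ t^2 log q (Rlg). So E(t) ≤ B2 t^(1/2)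
for all t ≥ 1, B2 = B2(C,q). For D ≠ 1: D > w and q^e(D) > D > w, so e(D) ≥ t0 := log w/log q. Dyadic decomposition t0 2^i ≤ e(D) < t0 2^(i+1): the sum is ≤ ∑_i E(t0 2^(i+1))/(t0 2^i) ≤ ∑_i B2 (t0 2^(i+1))^(1/2)/(t0 2^i) ≤ 6 B2 t0^(-1/2), → 0 as w → ∞
(real t0 ≥ 1; E of a real number = E of its floor). Use C ≥ 0, all terms are nonnegative. -/
def RmfStmt : Prop :=
  ∀ (C η : ℝ) (q : ℕ), 0 < C → 0 < η → q.Prime → ∃ w0 : ℕ, ∀ w : ℕ, w0 ≤ w → ∀ Z : ℕ,
    ∑ D ∈ (PZ w Z).divisors.filter (fun D => D ≠ 1),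
      C ^ om D / ((D : ℝ) * (orderOf ((q : ℕ) : ZMod D) : ℝ)) ≤ η

/-- Module RomP. Uses: Exp, Tot, Ord, Rlg, Rmf. Proof. w0 ≥ all q j and the numbers of Rmf for (C, η/4, q i), i : Fin T. Let w ≥ w0, Q = max q (Q = 2 if T = 0; then there is nothing to prove), Z = M^3 ≤ 64 N^3. n_a = Nat.dist (mlt q u) (mlt q (update v i.succ a)). For a < N < M: (a : ZMod M).val = a
and mlt q (update v i.succ a) = K2 * (q i)^a with K2 = (q i)^(M (v 0).val) ∏_{j ≠ i} (q j)^(..) (the coordinate 0 is not changed), prime to every D | PZ w Z (primes > w ≥ q j). Terms with n_a = 0 are 0 (sing = 1). n_a ≤ max of the two numbers ≤ Q^(T M^2) (exponents ≤ (M-1) + M(M-1)).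
For n_a ≥ 1: sing C w n_a ≤ (1 + S_a) (1 + e), S_a = ∑_{D | PZ w Z, D ≠ 1, D | n_a} C^om D/D (Exp; D = 1 gives 1), 1 + e = exp(C (T M^2 log Q/log 2)/M^3) (Rlg), e → 0 as M → ∞, e ≤ 1. So ∑_a (sing - 1) ≤ 2 ∑_a S_a + e N. ∑_a S_a = ∑_{D≠1} (C^om D/D) #{a < N : D | n_a} ≤
∑_{D≠1} (C^om D/D)(N/ord + 1) ≤ N η/4 + B (1 + log Z)^C (Ord with K1 = mlt q u; Rmf; Exp second part and Tot). Total ≤ N η/2 + 2B (1 + log(64 N^3))^C + e N ≤ η N for N ≥ N0. -/
def RomP2Stmt : Prop := RomPStmt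

/-! ### Moments -/

/-- Module Lcm. Uses: Exp. Proof. For d in the index set the number D = univ.lcm d is squarefree with prime factors ≤ R, so D | PZ 0 R. For a given D every d i divides D, so there are at most (2^om D)^m = (2^m)^om D tuples. So the sum is ≤ ∑_{D | PZ 0 R} (2^m)^om D/D = the product (Exp, second part, C = 2^m, w = 0). -/
def LcmStmt : Prop :=
  ∀ m R : ℕ,
    ∑ d ∈ Fintype.piFinset (fun _ : Fin m => (Icc 1 R).filter Squarefree),
      1 / ((univ.lcm d : ℕ) : ℝ) ≤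
      ∏ p ∈ (Ioc 0 R).filter Nat.Prime, (1 + (2 : ℝ) ^ m / (p : ℝ))

/-- Module Cnb. Uses: nothing. Proof. If D is not prime to c there is no such b. Otherwise D | c b + 1 determines b modulo D: at most X/D + 1 values of b in Icc 1 X. -/
def CnbStmt : Prop :=
  ∀ (c D X : ℕ), 1 ≤ D →
    (((Icc 1 X).filter (fun b => D ∣ c * b + 1)).card : ℝ) ≤ (X : ℝ) / D + 1

/-- Module Mom. Uses: Tot, Lcm, Cnb. Proof. J = 0: the mean is 1 ≤ (log X)^C for X ≥ 3. J ≥ 1: κ ≤ 1/2; C = J + 4^J + 1. R = X^κ > 1 for X ≥ 2. (Wp w).totient/Wp w ≤ 1, (2l-1)/l^2 ≤ 1, log R ≤ log X: nu^J ≤ (log X)^J Lam^(2J). |Lam l R n| ≤ t(n) = the number of squarefree divisors d ≤ R of n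
(0 ≤ 1 - log d/log R ≤ 1, μ(d) = 0 otherwise, |μ| ≤ 1). t(n)^(2J) = the number of d ∈ piFinset (squarefree numbers ≤ ⌊R⌋) with all d i | n, i.e. with lcm | n. Sum over b with n = (Wp w * m) b + 1: by Cnb ≤ ∑_d (X/lcm d + 1) ≤ X ∏_{p ≤ R} (1 + 4^J/p) + R^(2J) (Lcm with m = 2J, the index set has
≤ R^(2J) elements), R^(2J) = X^(2Jκ) ≤ X, and Tot (Z = ⌊R⌋ ≥ 2; for ⌊R⌋ = 1 the product is 1) bounds the product by B (1 + log X)^(4^J). So the mean is ≤ (log X)^J (B (1 + log X)^(4^J) + 1) ≤ (log X)^C for X ≥ X0. -/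
def Mom2Stmt : Prop := MomStmt

end Pool.Agent.Lib.MP_9f2731_nt.GP.Rom
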