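import Pool.Agent.Lib.MP_9f2731_nt.GP.Rom.Spec

/-!
MP_9f2731_nt, GP/Rom, module Cnb: the number of b with D | c b + 1.
-/

set_option autoImplicit false

namespace Pool.Agent.Lib.MP_9f2731_nt.GP.Rom

open Finset

/-- A set of numbers at most `X`, pairwise congruent modulo `e`, has at most `X / e + 1` elements. -/
theorem cnb_card {A : Finset ℕ} {e X : ℕ} (hA : ∀ a ∈ A, a ≤ X)
    (h : ∀ a ∈ A, ∀ b ∈ A, a ≡ b [MOD e]) : (A.card : ℝ) ≤ (X : ℝ) / e + 1 := by
  have h1 : A.card ≤ X / e + 1 := by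
    have h2 : A.card ≤ (range (X / e + 1)).card := by
      apply Finset.card_le_card_of_injOn (fun a => a / e)
      · intro a ha
        simp only [Finset.coe_range, Set.mem_Iio]
        have := Nat.div_le_div_right (c := e) (hA a ha)
        omega
      · intro a ha b hb hab
        have h3 : a / e = b / e := hab
        have h4 : a % e = b % e := h a ha b hb
        rw [← Nat.div_add_mod a e, ← Nat.div_add_mod b e, h3, h4]
    rwa [Finset.card_range] at h2
  have h5 : ((X / e : ℕ) : ℝ) ≤ (X : ℝ) / e := Nat.cast_div_le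
  have h6 : (A.card : ℝ) ≤ ((X / e + 1 : ℕ) : ℝ) := by exact_mod_cast h1
  push_cast at h6
  linarith

theorem pCnb : CnbStmt := by
  intro c D X _
  refine cnb_card (fun b hb => (Finset.mem_Icc.1 (Finset.mem_filter.1 hb).1).2) ?_
  intro a ha b hb
  have h1 := (Finset.mem_filter.1 ha).2
  have h2 := (Finset.mem_filter.1 hb).2
  have hco : Nat.gcd D c = 1 := by
    apply Nat.eq_one_of_dvd_one
    have d1 : Nat.gcd D c ∣ c * a + 1 := (Nat.gcd_dvd_left D c).trans h1
    have d2 : Nat.gcd D c ∣ c * a := (Nat.gcd_dvd_right D c).mul_right a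
    exact (Nat.dvd_add_right d2).1 d1
  have h3 : c * a + 1 ≡ c * b + 1 [MOD D] :=
    ((Nat.modEq_zero_iff_dvd).2 h1).trans ((Nat.modEq_zero_iff_dvd).2 h2).symm
  exact Nat.ModEq.cancel_left_of_coprime hco (Nat.ModEq.add_right_cancel' 1 h3)

end Pool.Agent.Lib.MP_9f2731_nt.GP.Rom
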