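import Pool.Agent.Lib.MP_9f2731_nt.GP.Rom.Spec

/-!
MP_9f2731_nt, GP/Rom, module Lcm: reciprocal sums of least common multiples.
-/

namespace Pool.Agent.Lib.MP_9f2731_nt.GP.Rom

open Finset

theorem Lcm_sq (w Z : ℕ) : Squarefree (PZ w Z) := by
  unfold PZ
  refine Finset.squarefree_prod_of_pairwise_isCoprime (fun p hp q hq hpq => ?_) fun p hp => ?_
  · rw [mem_coe, mem_filter] at hp hq
    simp only [Function.onFun]
    rw [← Nat.coprime_iff_isRelPrime]
    exact (Nat.coprime_primes hp.2 hq.2).2 hpq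
  · rw [mem_filter] at hp
    exact hp.2.prime.squarefree

theorem Lcm_dvd {d R : ℕ} (hd : Squarefree d) (hR : d ≤ R) : d ∣ PZ 0 R := by
  have h : (∏ p ∈ d.primeFactors, p) ∣ ∏ p ∈ (Ioc 0 R).filter Nat.Prime, p := by
    refine Finset.prod_dvd_prod_of_subset _ _ _ fun p hp => ?_
    have h1 := Nat.prime_of_mem_primeFactors hp
    have h2 := Nat.dvd_of_mem_primeFactors hp
    rw [mem_filter, mem_Ioc]
    exact ⟨⟨h1.pos, (Nat.le_of_dvd (Nat.pos_of_ne_zero hd.ne_zero) h2).trans hR⟩, h1⟩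
  rwa [Nat.prod_primeFactors_of_squarefree hd] at h

theorem Lcm_card {D : ℕ} (hD : Squarefree D) : D.divisors.card = 2 ^ om D := by
  rw [Nat.card_divisors hD.ne_zero]
  unfold om
  rw [← prod_const]
  refine prod_congr rfl fun p hp => ?_
  rw [Nat.factorization_eq_one_of_squarefree hD (Nat.prime_of_mem_primeFactors hp)
    (Nat.dvd_of_mem_primeFactors hp)]

theorem pLcm (hE : ExpStmt) : LcmStmt := by
  classical
  intro m R
  rw [hE.2 ((2 : ℝ) ^ m) 0 R]
  set s : Finset (Fin m → ℕ) :=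
    Fintype.piFinset (fun _ : Fin m => (Icc 1 R).filter Squarefree) with hs
  have hmap : ∀ d ∈ s, univ.lcm d ∈ (PZ 0 R).divisors := by
    intro d hd
    rw [Nat.mem_divisors]
    refine ⟨Finset.lcm_dvd fun i _ => ?_, (Lcm_sq 0 R).ne_zero⟩
    have h1 := Fintype.mem_piFinset.1 hd i
    rw [mem_filter, mem_Icc] at h1
    exact Lcm_dvd h1.2 h1.1.2
  rw [← sum_fiberwise_of_maps_to hmap]
  refine sum_le_sum fun D hD => ?_
  have hDs : Squarefree D := (Lcm_sq 0 R).squarefree_of_dvd (Nat.dvd_of_mem_divisors hD)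
  have hD0 : (0 : ℝ) < D := by exact_mod_cast Nat.pos_of_ne_zero hDs.ne_zero
  have h1 : ∑ d ∈ s with univ.lcm d = D, 1 / ((univ.lcm d : ℕ) : ℝ)
      = ((s.filter fun d => univ.lcm d = D).card : ℝ) * (1 / (D : ℝ)) := by
    rw [← nsmul_eq_mul, ← sum_const]
    refine sum_congr rfl fun d hd => ?_
    rw [(mem_filter.1 hd).2]
  have h2 : (s.filter fun d => univ.lcm d = D).card ≤ (2 ^ m) ^ om D := by
    have h3 : (s.filter fun d => univ.lcm d = D) ⊆ Fintype.piFinset fun _ : Fin m => D.divisors := by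
      intro d hd
      rw [Fintype.mem_piFinset]
      intro i
      rw [Nat.mem_divisors]
      refine ⟨?_, hDs.ne_zero⟩
      rw [← (mem_filter.1 hd).2]
      exact Finset.dvd_lcm (mem_univ i)
    refine (card_le_card h3).trans ?_
    rw [Fintype.card_piFinset, prod_const, card_univ, Fintype.card_fin, Lcm_card hDs, ← pow_mul,
      ← pow_mul, mul_comm]
  rw [h1, mul_one_div]
  refine div_le_div_of_nonneg_right ?_ hD0.le
  exact_mod_cast h2

end Pool.Agent.Lib.MP_9f2731_nt.GP.Rom
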