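import Pool.Agent.Lib.MP_9f2731_nt.GP.Rom.Cnb

/-!
MP_9f2731_nt, GP/Rom, module Ord: the number of a < N with K2 q^a congruent to K1 modulo D.
-/

set_option autoImplicit false

namespace Pool.Agent.Lib.MP_9f2731_nt.GP.Rom

open Finset

private theorem ord_dist {D a b : ℕ} (h : D ∣ Nat.dist a b) : ((a : ℕ) : ZMod D) = (b : ℕ) := by
  rw [ZMod.natCast_eq_natCast_iff]
  rcases le_total a b with hab | hab
  · rw [Nat.dist_eq_sub_of_le hab] at h
    exact (Nat.modEq_iff_dvd' hab).2 h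
  · rw [Nat.dist_eq_sub_of_le_right hab] at h
    exact ((Nat.modEq_iff_dvd' hab).2 h).symm

theorem pOrd : OrdStmt := by
  intro q D K1 K2 N hD hq hK
  have : NeZero D := ⟨by omega⟩
  refine cnb_card (fun a ha => (Finset.mem_range.1 (Finset.mem_filter.1 ha).1).le) ?_
  intro a ha b hb
  have h1 := ord_dist (Finset.mem_filter.1 ha).2
  have h2 := ord_dist (Finset.mem_filter.1 hb).2
  have hu : IsUnit ((K2 : ℕ) : ZMod D) := (ZMod.isUnit_iff_coprime K2 D).2 hK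
  have hqu : IsUnit ((q : ℕ) : ZMod D) := (ZMod.isUnit_iff_coprime q D).2 hq
  have h3 : ((K2 : ℕ) : ZMod D) * ((q : ℕ) : ZMod D) ^ a =
      ((K2 : ℕ) : ZMod D) * ((q : ℕ) : ZMod D) ^ b := by
    rw [h1] at h2
    push_cast at h2
    exact h2
  have h4 : ((q : ℕ) : ZMod D) ^ a = ((q : ℕ) : ZMod D) ^ b := hu.mul_left_cancel h3
  obtain ⟨u, hu'⟩ := hqu
  rw [← hu'] at h4 ⊢
  rw [orderOf_units]
  have h5 : u ^ a = u ^ b := Units.ext (by push_cast; exact h4)
  exact pow_eq_pow_iff_modEq.1 h5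

end Pool.Agent.Lib.MP_9f2731_nt.GP.Rom
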