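import Pool.Agent.Lib.MP_9f2731_nt.GP.Rom.Spec

/-!
MP_9f2731_nt, GP/Rom, module Rlg: the Euler product over the large prime factors of n.
-/

set_option autoImplicit false

namespace Pool.Agent.Lib.MP_9f2731_nt.GP.Rom

open Finset

theorem pRlg : RlgStmt := by
  intro C n Z hC hn hZ
  set S := n.primeFactors.filter (fun p => Z < p) with hS
  have hZ0 : (0 : ℝ) < Z := by exact_mod_cast hZ
  have hl2 : 0 < Real.log 2 := Real.log_pos (by norm_num)
  have h1 : ∏ p ∈ S, (1 + C / (p : ℝ)) ≤ ∏ _p ∈ S, Real.exp (C / Z) := by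
    refine Finset.prod_le_prod (fun p _ => by positivity) fun p hp => ?_
    have hp' : (Z : ℝ) < p := by exact_mod_cast (Finset.mem_filter.1 hp).2
    have a1 : C / (p : ℝ) ≤ C / Z := div_le_div_of_nonneg_left hC.le hZ0 hp'.le
    have a2 := Real.add_one_le_exp (C / (Z : ℝ))
    linarith
  have h2 : 2 ^ S.card ≤ n := by
    have b1 : 2 ^ S.card ≤ 2 ^ n.primeFactors.card :=
      Nat.pow_le_pow_right (by norm_num) (Finset.card_filter_le _ _)
    have b2 : ∏ _p ∈ n.primeFactors, 2 ≤ ∏ p ∈ n.primeFactors, p :=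
      Finset.prod_le_prod (fun _ _ => Nat.zero_le _) fun p hp =>
        (Nat.prime_of_mem_primeFactors hp).two_le
    rw [Finset.prod_const] at b2
    exact b1.trans (b2.trans (Nat.le_of_dvd (by omega) (Nat.prod_primeFactors_dvd n)))
  have h3 : (S.card : ℝ) ≤ Real.log n / Real.log 2 := by
    rw [le_div_iff₀ hl2, ← Real.log_pow]
    exact Real.log_le_log (by positivity) (by exact_mod_cast h2)
  refine h1.trans ?_
  rw [Finset.prod_const, ← Real.exp_nat_mul]
  refine Real.exp_le_exp.2 ?_
  calc (S.card : ℝ) * (C / Z) ≤ (Real.log n / Real.log 2) * (C / Z) :=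
        mul_le_mul_of_nonneg_right h3 (by positivity)
    _ = C * (Real.log n / Real.log 2) / Z := by ring

end Pool.Agent.Lib.MP_9f2731_nt.GP.Rom
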