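import Pool.Agent.Lib.MP_9f2731_nt.GP.Rom.Spec

/-!
MP_9f2731_nt, GP/Rom/Rmf: Romanoff's sum.
-/

namespace Pool.Agent.Lib.MP_9f2731_nt.GP.Rom

open Finset

namespace RmfAux

theorem one_le_fac {C : ℝ} (hC : 0 < C) (p : ℕ) : 1 ≤ 1 + C / (p : ℝ) := by
  have : 0 ≤ C / (p : ℝ) := by positivity
  linarith

/-- Monotonicity of the products. -/
theorem prod_mono {C : ℝ} (hC : 0 < C) {s t : Finset ℕ} (h : s ⊆ t) :
    ∏ p ∈ s, (1 + C / (p : ℝ)) ≤ ∏ p ∈ t, (1 + C / (p : ℝ)) :=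
  Finset.prod_le_prod_of_subset_of_one_le h (fun p _ => by positivity)
    (fun p _ _ => one_le_fac hC p)

/-- The product of the `q ^ j - 1`. -/
def Qt (q t : ℕ) : ℕ := ∏ j ∈ Icc 1 t, (q ^ j - 1)

theorem pow_sub_pos {q j : ℕ} (hq : 2 ≤ q) (hj : 1 ≤ j) : 0 < q ^ j - 1 := by
  have : 1 < q ^ j := Nat.one_lt_pow (by omega) (by omega)
  omega

theorem Qt_pos {q : ℕ} (hq : 2 ≤ q) (t : ℕ) : 0 < Qt q t :=
  Finset.prod_pos fun j hj => pow_sub_pos hq (Finset.mem_Icc.1 hj).1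

theorem log_Qt {q : ℕ} (hq : 2 ≤ q) (t : ℕ) : Real.log (Qt q t) ≤ (t : ℝ) ^ 2 * Real.log q := by
  have h1 : Qt q t ≤ (q ^ t) ^ t := by
    calc Qt q t ≤ ∏ j ∈ Icc 1 t, q ^ t := Finset.prod_le_prod' fun j hj =>
          (Nat.sub_le _ _).trans (Nat.pow_le_pow_right (by omega) (Finset.mem_Icc.1 hj).2)
      _ = (q ^ t) ^ t := by rw [Finset.prod_const, Nat.card_Icc, Nat.add_sub_cancel]
  have h2 : ((Qt q t : ℕ) : ℝ) ≤ ((q : ℝ) ^ t) ^ t := by exact_mod_cast h1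
  have h3 : (0 : ℝ) < (Qt q t : ℕ) := by exact_mod_cast Qt_pos hq t
  calc Real.log (Qt q t) ≤ Real.log (((q : ℝ) ^ t) ^ t) := Real.log_le_log h3 h2
    _ = (t : ℝ) ^ 2 * Real.log q := by
        rw [Real.log_pow, Real.log_pow]; ring

/-- The number `1 + log (t^2 + 2)` is bounded by a small power of `t`. -/
theorem log_bound {C : ℝ} (hC : 0 < C) : ∃ A : ℝ, 0 < A ∧ ∀ t : ℕ, 1 ≤ t →
    (1 + Real.log ((t ^ 2 + 2 : ℕ) : ℝ)) ^ C ≤ A * Real.sqrt t := by
  set ε : ℝ := 1 / (4 * C) with hε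
  have hε0 : 0 < ε := by positivity
  refine ⟨(1 + 3 ^ ε / ε) ^ C, by positivity, fun t ht => ?_⟩
  have ht' : (1 : ℝ) ≤ t := by exact_mod_cast ht
  have ht0 : (0 : ℝ) < t := by linarith
  have h1 : ((t ^ 2 + 2 : ℕ) : ℝ) ≤ 3 * (t : ℝ) ^ 2 := by
    push_cast; nlinarith
  have h2 : Real.log ((t ^ 2 + 2 : ℕ) : ℝ) ≤ (3 * (t : ℝ) ^ 2) ^ ε / ε :=
    (Real.log_le_log (by positivity) h1).trans
      (Real.log_le_rpow_div (by positivity) hε0)
  have h3 : (3 * (t : ℝ) ^ 2) ^ ε = 3 ^ ε * (t : ℝ) ^ (2 * ε) := by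
    rw [Real.mul_rpow (by norm_num) (by positivity), ← Real.rpow_natCast (t : ℝ) 2,
      ← Real.rpow_mul ht0.le]
    norm_num
  have h4 : (1 : ℝ) ≤ (t : ℝ) ^ (2 * ε) := Real.one_le_rpow ht' (by positivity)
  have h5 : 1 + Real.log ((t ^ 2 + 2 : ℕ) : ℝ) ≤ (1 + 3 ^ ε / ε) * (t : ℝ) ^ (2 * ε) := by
    have : (3 * (t : ℝ) ^ 2) ^ ε / ε = 3 ^ ε / ε * (t : ℝ) ^ (2 * ε) := by rw [h3]; ring
    rw [this] at h2
    nlinarith
  have h6 : 0 ≤ Real.log ((t ^ 2 + 2 : ℕ) : ℝ) := by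
    apply Real.log_nonneg
    push_cast; nlinarith
  calc (1 + Real.log ((t ^ 2 + 2 : ℕ) : ℝ)) ^ C
      ≤ ((1 + 3 ^ ε / ε) * (t : ℝ) ^ (2 * ε)) ^ C :=
        Real.rpow_le_rpow (by linarith) h5 hC.le
    _ = (1 + 3 ^ ε / ε) ^ C * Real.sqrt t := by
        rw [Real.mul_rpow (by positivity) (by positivity), ← Real.rpow_mul ht0.le,
          Real.sqrt_eq_rpow]
        congr 2
        rw [hε]; field_simp; norm_num

/-- The divisors of `PZ w Z` with small order. -/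
theorem E_bound (hExp : ExpStmt) (hTot : TotStmt) (hRlg : RlgStmt) {C : ℝ} (hC : 0 < C) {q : ℕ}
    (hq : 2 ≤ q) : ∃ B2 : ℝ, 0 < B2 ∧ ∀ (w Z t : ℕ), 1 ≤ t →
      ∑ D ∈ (PZ w Z).divisors.filter (fun D => D ∣ Qt q t), C ^ om D / (D : ℝ)
        ≤ B2 * Real.sqrt t := by
  obtain ⟨B, hB, hB'⟩ := hTot C hC
  obtain ⟨A, hA, hA'⟩ := log_bound hC
  refine ⟨B * A * Real.exp (C * (Real.log q / Real.log 2)), by positivity, fun w Z t ht => ?_⟩
  have hQ := Qt_pos hq t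
  rw [← hExp.1 C w Z (Qt q t) hQ.ne']
  set y : ℕ := t ^ 2 + 2 with hy
  have hlogq : 0 ≤ Real.log q := Real.log_nonneg (by exact_mod_cast (by omega : 1 ≤ q))
  have hlog2 : 0 < Real.log 2 := Real.log_pos (by norm_num)
  have h1 : ∏ p ∈ (Qt q t).primeFactors.filter (fun p => w < p ∧ p ≤ Z), (1 + C / (p : ℝ)) ≤
      ∏ p ∈ (Qt q t).primeFactors, (1 + C / (p : ℝ)) :=
    prod_mono hC (Finset.filter_subset _ _)
  have h2 : ∏ p ∈ (Qt q t).primeFactors, (1 + C / (p : ℝ)) =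
      (∏ p ∈ (Qt q t).primeFactors.filter (fun p => y < p), (1 + C / (p : ℝ))) *
      ∏ p ∈ (Qt q t).primeFactors.filter (fun p => ¬ y < p), (1 + C / (p : ℝ)) :=
    (Finset.prod_filter_mul_prod_filter_not _ _ _).symm
  have h3 : ∏ p ∈ (Qt q t).primeFactors.filter (fun p => ¬ y < p), (1 + C / (p : ℝ)) ≤
      ∏ p ∈ (Ioc 0 y).filter Nat.Prime, (1 + C / (p : ℝ)) := by
    refine prod_mono hC fun p hp => ?_
    rw [Finset.mem_filter] at hp ⊢
    have hp' := Nat.prime_of_mem_primeFactors hp.1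
    rw [Finset.mem_Ioc]
    exact ⟨⟨hp'.pos, not_lt.1 hp.2⟩, hp'⟩
  have h4 := hB' 0 y (by omega)
  have h5 := hRlg C (Qt q t) y hC hQ (by omega)
  have h6 : C * (Real.log (Qt q t) / Real.log 2) / y ≤ C * (Real.log q / Real.log 2) := by
    have hy0 : (0 : ℝ) < (y : ℕ) := by rw [hy]; positivity
    rw [div_le_iff₀ hy0]
    have h7 := log_Qt hq t
    have h8 : (t : ℝ) ^ 2 ≤ (y : ℕ) := by rw [hy]; push_cast; linarith
    have h9 : Real.log (Qt q t) ≤ (y : ℕ) * Real.log q :=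
      h7.trans (mul_le_mul_of_nonneg_right h8 hlogq)
    calc C * (Real.log (Qt q t) / Real.log 2)
        ≤ C * (((y : ℕ) : ℝ) * Real.log q / Real.log 2) := by gcongr
      _ = _ := by ring
  have h10 := hA' t ht
  have hp0 : 0 ≤ ∏ p ∈ (Qt q t).primeFactors.filter (fun p => y < p), (1 + C / (p : ℝ)) :=
    Finset.prod_nonneg fun p _ => by positivity
  calc ∏ p ∈ (Qt q t).primeFactors.filter (fun p => w < p ∧ p ≤ Z), (1 + C / (p : ℝ))
      ≤ (∏ p ∈ (Qt q t).primeFactors.filter (fun p => y < p), (1 + C / (p : ℝ))) *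
        ∏ p ∈ (Qt q t).primeFactors.filter (fun p => ¬ y < p), (1 + C / (p : ℝ)) :=
        h1.trans h2.le
    _ ≤ Real.exp (C * (Real.log q / Real.log 2)) * (B * (A * Real.sqrt t)) := by
        refine mul_le_mul (h5.trans (Real.exp_le_exp.2 h6)) ?_
          (Finset.prod_nonneg fun p _ => by positivity) (Real.exp_pos _).le
        exact h3.trans (h4.trans (mul_le_mul_of_nonneg_left h10 hB.le))
    _ = _ := by ring

/-- The geometric sum. -/
theorem geom {r : ℝ} (h0 : 0 < r) (h1 : r < 1) (i0 : ℕ) (I : Finset ℕ) (hI : ∀ i ∈ I, i0 ≤ i) :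
    ∑ i ∈ I, r ^ i ≤ r ^ i0 / (1 - r) := by
  have hs := summable_geometric_of_lt_one h0.le h1
  have hs' : Summable fun k => r ^ (i0 + k) := by
    simp only [pow_add]; exact hs.mul_left _
  have h2 : ∑ i ∈ I, r ^ i = ∑ k ∈ I.image (fun i => i - i0), r ^ (i0 + k) := by
    rw [Finset.sum_image]
    · exact Finset.sum_congr rfl fun i hi => by rw [Nat.add_sub_cancel' (hI i hi)]
    · intro a ha b hb hab
      have := hI a ha
      have := hI b hb
      simp only at hab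
      omega
  rw [h2]
  calc ∑ k ∈ I.image (fun i => i - i0), r ^ (i0 + k) ≤ ∑' k, r ^ (i0 + k) :=
        hs'.sum_le_tsum _ fun _ _ => by positivity
    _ = r ^ i0 / (1 - r) := by
        simp only [pow_add]
        rw [tsum_mul_left, tsum_geometric_of_lt_one h0.le h1]
        rfl

end RmfAux

open RmfAux

theorem pRmf (hExp : ExpStmt) (hTot : TotStmt) (hRlg : RlgStmt) : RmfStmt := by
  intro C η q hC hη hqp
  have hq : 2 ≤ q := hqp.two_le
  obtain ⟨B2, hB2, hE⟩ := E_bound hExp hTot hRlg hC hq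
  set r : ℝ := (Real.sqrt 2)⁻¹ with hr
  have hs2 : (1 : ℝ) < Real.sqrt 2 := by
    rw [Real.lt_sqrt (by norm_num)]; norm_num
  have hr0 : 0 < r := by positivity
  have hr1 : r < 1 := inv_lt_one_of_one_lt₀ hs2
  obtain ⟨i0, hi0⟩ : ∃ i0 : ℕ, r ^ i0 < η * (1 - r) / (B2 * Real.sqrt 2) :=
    exists_pow_lt_of_lt_one (by
      have : 0 < 1 - r := by linarith
      positivity) hr1
  refine ⟨max q (q ^ (2 ^ i0)), fun w hw Z => ?_⟩
  have hwq : q ≤ w := (le_max_left _ _).trans hw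
  have hww : q ^ (2 ^ i0) ≤ w := (le_max_right _ _).trans hw
  have hPZ : PZ w Z ≠ 0 := by
    unfold PZ
    rw [Finset.prod_ne_zero_iff]
    intro p hp
    exact (Finset.mem_filter.1 hp).2.ne_zero
  -- the prime factors of the divisors
  have hpr : ∀ D, D ∣ PZ w Z → ∀ p, p.Prime → p ∣ D → w < p := by
    intro D hD p hp hpD
    have h1 : p ∣ PZ w Z := hpD.trans hD
    unfold PZ at h1
    rw [Prime.dvd_finset_prod_iff hp.prime] at h1
    obtain ⟨p', hp', h2⟩ := h1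
    rw [Finset.mem_filter, Finset.mem_Ioc] at hp'
    rw [(Nat.prime_dvd_prime_iff_eq hp hp'.2).1 h2]
    exact hp'.1.1
  have hcop : ∀ D, D ∣ PZ w Z → Nat.Coprime q D := by
    intro D hD
    rw [Nat.Prime.coprime_iff_not_dvd hqp]
    intro h
    have := hpr D hD q hqp h
    omega
  set e : ℕ → ℕ := fun D => orderOf ((q : ℕ) : ZMod D) with he
  have hdvd : ∀ D j, D ∣ q ^ j - 1 ↔ ((q : ℕ) : ZMod D) ^ j = 1 := by
    intro D j
    have h1 : 1 ≤ q ^ j := Nat.one_le_pow _ _ (by omega)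
    rw [← ZMod.natCast_eq_zero_iff, Nat.cast_sub h1]
    push_cast
    rw [sub_eq_zero]
  have he0 : ∀ D, D ∣ PZ w Z → 1 ≤ e D := by
    intro D hD
    have hD0 : D ≠ 0 := ne_zero_of_dvd_ne_zero hPZ hD
    haveI : NeZero D := ⟨hD0⟩
    have h1 := orderOf_pos (ZMod.unitOfCoprime q (hcop D hD))
    have h2 : orderOf (((ZMod.unitOfCoprime q (hcop D hD) : (ZMod D)ˣ)) : ZMod D) =
        orderOf (ZMod.unitOfCoprime q (hcop D hD)) := orderOf_units
    rw [ZMod.coe_unitOfCoprime] at h2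
    show 1 ≤ orderOf ((q : ℕ) : ZMod D)
    rw [h2]
    exact h1
  have hQt : ∀ D t, D ∣ PZ w Z → e D ≤ t → D ∣ Qt q t := by
    intro D t hD ht
    have h1 : D ∣ q ^ e D - 1 := (hdvd D _).2 (pow_orderOf_eq_one _)
    exact h1.trans (Finset.dvd_prod_of_mem _ (Finset.mem_Icc.2 ⟨he0 D hD, ht⟩))
  have hlow : ∀ D, D ∣ PZ w Z → D ≠ 1 → i0 ≤ Nat.log 2 (e D) := by
    intro D hD hD1
    obtain ⟨p, hp, hpD⟩ := Nat.exists_prime_and_dvd hD1
    have h1 := hpr D hD p hp hpD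
    have hD0 : D ≠ 0 := ne_zero_of_dvd_ne_zero hPZ hD
    have h2 : p ≤ D := Nat.le_of_dvd (Nat.pos_of_ne_zero hD0) hpD
    have h3 : D ∣ q ^ e D - 1 := (hdvd D _).2 (pow_orderOf_eq_one _)
    have h4 : D ≤ q ^ e D - 1 := Nat.le_of_dvd (pow_sub_pos hq (he0 D hD)) h3
    have h5 : q ^ (2 ^ i0) < q ^ e D := by omega
    have h6 : 2 ^ i0 < e D := (Nat.pow_lt_pow_iff_right (by omega)).1 h5
    exact Nat.le_log_of_pow_le (by norm_num) h6.le
  set S := (PZ w Z).divisors.filter (fun D => D ≠ 1) with hS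
  have hSm : ∀ D ∈ S, D ∣ PZ w Z ∧ D ≠ 1 := fun D hD => by
    rw [hS, Finset.mem_filter, Nat.mem_divisors] at hD
    exact ⟨hD.1.1, hD.2⟩
  have hfib : ∑ D ∈ S, C ^ om D / ((D : ℝ) * (e D : ℝ)) =
      ∑ i ∈ S.image (fun D => Nat.log 2 (e D)),
        ∑ D ∈ S.filter (fun D => Nat.log 2 (e D) = i), C ^ om D / ((D : ℝ) * (e D : ℝ)) :=
    (Finset.sum_fiberwise_of_maps_to (fun D hD => Finset.mem_image_of_mem _ hD) _).symm
  have hin : ∀ i ∈ S.image (fun D => Nat.log 2 (e D)),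
      ∑ D ∈ S.filter (fun D => Nat.log 2 (e D) = i), C ^ om D / ((D : ℝ) * (e D : ℝ)) ≤
        B2 * Real.sqrt 2 * r ^ i := by
    intro i _
    have h1 : ∑ D ∈ S.filter (fun D => Nat.log 2 (e D) = i), C ^ om D / ((D : ℝ) * (e D : ℝ)) ≤
        (∑ D ∈ S.filter (fun D => Nat.log 2 (e D) = i), C ^ om D / (D : ℝ)) / 2 ^ i := by
      rw [Finset.sum_div]
      refine Finset.sum_le_sum fun D hD => ?_
      rw [Finset.mem_filter] at hD
      have hDS := hSm D hD.1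
      have h2 : 2 ^ i ≤ e D := by
        rw [← hD.2]
        exact Nat.pow_log_le_self 2 (by have := he0 D hDS.1; omega)
      have h3 : (2 : ℝ) ^ i ≤ (e D : ℝ) := by exact_mod_cast h2
      rw [← div_div]
      exact div_le_div_of_nonneg_left (by positivity) (by positivity) h3
    have h2 : ∑ D ∈ S.filter (fun D => Nat.log 2 (e D) = i), C ^ om D / (D : ℝ) ≤
        ∑ D ∈ (PZ w Z).divisors.filter (fun D => D ∣ Qt q (2 ^ (i + 1))),
          C ^ om D / (D : ℝ) := by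
      refine Finset.sum_le_sum_of_subset_of_nonneg (fun D hD => ?_) fun D _ _ => by positivity
      rw [Finset.mem_filter] at hD
      have hDS := hSm D hD.1
      rw [Finset.mem_filter, Nat.mem_divisors]
      refine ⟨⟨hDS.1, hPZ⟩, hQt D _ hDS.1 ?_⟩
      rw [← hD.2]
      exact (Nat.lt_pow_succ_log_self (by norm_num) _).le
    have h3 := hE w Z (2 ^ (i + 1)) Nat.one_le_two_pow
    have h4 : Real.sqrt ((2 ^ (i + 1) : ℕ) : ℝ) = Real.sqrt 2 ^ (i + 1) := by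
      push_cast
      have h5 : (2 : ℝ) ^ (i + 1) = (Real.sqrt 2 ^ (i + 1)) ^ 2 := by
        rw [← pow_mul, mul_comm, pow_mul, Real.sq_sqrt (by norm_num)]
      rw [h5, Real.sqrt_sq (by positivity)]
    have h5 : B2 * Real.sqrt 2 ^ (i + 1) / 2 ^ i = B2 * Real.sqrt 2 * r ^ i := by
      have h6 : (2 : ℝ) ^ i = Real.sqrt 2 ^ i * Real.sqrt 2 ^ i := by
        rw [← mul_pow, Real.mul_self_sqrt (by norm_num)]
      rw [h6, hr, pow_succ, inv_pow]
      have h7 : Real.sqrt 2 ^ i ≠ 0 := by positivity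
      field_simp
    calc _ ≤ _ := h1
      _ ≤ B2 * Real.sqrt 2 ^ (i + 1) / 2 ^ i := by
          rw [← h4]
          exact div_le_div_of_nonneg_right (h2.trans h3) (by positivity)
      _ = _ := h5
  show ∑ D ∈ S, C ^ om D / ((D : ℝ) * (e D : ℝ)) ≤ η
  rw [hfib]
  have hg := geom hr0 hr1 i0 (S.image (fun D => Nat.log 2 (e D))) (by
    intro i hi
    rw [Finset.mem_image] at hi
    obtain ⟨D, hD, rfl⟩ := hi
    exact hlow D (hSm D hD).1 (hSm D hD).2)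
  have h1r : 0 < 1 - r := by linarith
  calc _ ≤ ∑ i ∈ S.image (fun D => Nat.log 2 (e D)), B2 * Real.sqrt 2 * r ^ i :=
        Finset.sum_le_sum hin
    _ = B2 * Real.sqrt 2 * ∑ i ∈ S.image (fun D => Nat.log 2 (e D)), r ^ i := by
        rw [Finset.mul_sum]
    _ ≤ B2 * Real.sqrt 2 * (r ^ i0 / (1 - r)) := by gcongr
    _ ≤ η := by
        rw [← mul_div_assoc, div_le_iff₀ h1r]
        rw [lt_div_iff₀ (by positivity)] at hi0
        linarith

end Pool.Agent.Lib.MP_9f2731_nt.GP.Rom
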