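import Pool.Agent.Lib.MP_9f2731_nt.GP.Rom.Spec

/-!
MP_9f2731_nt, GP/Rom, module RomP: the Romanoff type mean value of the singular factor, pointwise form.
-/

namespace Pool.Agent.Lib.MP_9f2731_nt.GP.Rom

open Finset

private lemma RomP_one_le (C : ℝ) (hC : 0 < C) (p : ℕ) : (1 : ℝ) ≤ 1 + C / (p : ℝ) := by
  have : 0 ≤ C / (p : ℝ) := by positivity
  linarith

private lemma RomP_sing_le (C : ℝ) (hC : 0 < C) (w Z n : ℕ) :
    sing C w n ≤ (∏ p ∈ n.primeFactors.filter (fun p => w < p ∧ p ≤ Z), (1 + C / (p : ℝ))) *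
      (∏ p ∈ n.primeFactors.filter (fun p => Z < p), (1 + C / (p : ℝ))) := by
  classical
  unfold sing
  rw [← Finset.prod_union]
  · have hsub : n.primeFactors.filter (fun p => w < p) ⊆
        n.primeFactors.filter (fun p => w < p ∧ p ≤ Z) ∪ n.primeFactors.filter (fun p => Z < p) := by
      intro p hp
      simp only [Finset.mem_union, Finset.mem_filter] at hp ⊢
      by_cases h : p ≤ Z
      · exact Or.inl ⟨hp.1, hp.2, h⟩
      · exact Or.inr ⟨hp.1, by omega⟩
    rw [← Finset.prod_sdiff hsub]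
    have hA : (1 : ℝ) ≤ ∏ p ∈ (n.primeFactors.filter (fun p => w < p ∧ p ≤ Z) ∪
        n.primeFactors.filter (fun p => Z < p)) \ n.primeFactors.filter (fun p => w < p),
        (1 + C / (p : ℝ)) := by
      exact Finset.prod_induction _ (fun x : ℝ => 1 ≤ x)
        (fun a b ha hb => one_le_mul_of_one_le_of_one_le ha hb) le_rfl
        (fun p _ => RomP_one_le C hC p)
    have hB : (0 : ℝ) ≤ ∏ p ∈ n.primeFactors.filter (fun p => w < p), (1 + C / (p : ℝ)) :=
      Finset.prod_nonneg (fun p _ => le_trans zero_le_one (RomP_one_le C hC p))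
    nlinarith
  · rw [Finset.disjoint_left]
    intro p hp hp'
    simp only [Finset.mem_filter] at hp hp'
    omega

private lemma RomP_PZ_ne (w Z : ℕ) : PZ w Z ≠ 0 := by
  unfold PZ
  rw [Finset.prod_ne_zero_iff]
  intro p hp
  exact (Finset.mem_filter.mp hp).2.ne_zero

private lemma RomP_term (h1 : ExpStmt) (h4 : RlgStmt) (C : ℝ) (hC : 0 < C) (w Z n : ℕ) (hZ : 1 ≤ Z)
    (E : ℝ) (hE : 1 ≤ E)
    (hexp : 1 ≤ n → Real.exp (C * (Real.log n / Real.log 2) / Z) ≤ E) :
    sing C w n ≤ (1 + ∑ D ∈ ((PZ w Z).divisors.filter (fun D => D ≠ 1)).filter (fun D => D ∣ n),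
      C ^ om D / (D : ℝ)) * E := by
  classical
  have hS : 0 ≤ ∑ D ∈ ((PZ w Z).divisors.filter (fun D => D ≠ 1)).filter (fun D => D ∣ n),
      C ^ om D / (D : ℝ) := Finset.sum_nonneg (fun D _ => by positivity)
  rcases Nat.eq_zero_or_pos n with hn | hn
  · subst hn
    have : sing C w 0 = 1 := by simp [sing]
    rw [this]
    nlinarith
  · have ha := RomP_sing_le C hC w Z n
    rw [h1.1 C w Z n hn.ne'] at ha
    have hmem : 1 ∈ (PZ w Z).divisors.filter (fun D => D ∣ n) := by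
      simp [RomP_PZ_ne w Z]
    rw [← Finset.add_sum_erase _ _ hmem] at ha
    have her : ((PZ w Z).divisors.filter (fun D => D ∣ n)).erase 1 =
        ((PZ w Z).divisors.filter (fun D => D ≠ 1)).filter (fun D => D ∣ n) := by
      ext D
      simp only [Finset.mem_erase, Finset.mem_filter]
      tauto
    rw [her] at ha
    have h11 : C ^ om 1 / ((1 : ℕ) : ℝ) = 1 := by simp [om]
    rw [h11] at ha
    refine le_trans ha ?_
    apply mul_le_mul_of_nonneg_left _ (by linarith)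
    exact le_trans (h4 C n Z hC hn hZ) (hexp hn)

private lemma RomP_mlt (T M : ℕ) [NeZero M] (q : Fin T → ℕ) (v : Fin (T + 1) → ZMod M) (i : Fin T)
    (a : ℕ) (ha : a < M) :
    mlt q (Function.update v i.succ ((a : ℕ) : ZMod M)) =
      (∏ j : Fin T, q j ^ ((if j = i then 0 else (v j.succ).val) + M * (v 0).val)) * q i ^ a := by
  unfold mlt
  have h0 : Function.update v i.succ ((a : ℕ) : ZMod M) 0 = v 0 :=
    Function.update_of_ne (Fin.succ_ne_zero i).symm _ _
  have hpi : q i ^ a = ∏ j : Fin T, q j ^ (if j = i then a else 0) := by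
    rw [Finset.prod_eq_single i]
    · simp
    · intro b _ hb
      simp [hb]
    · simp
  rw [hpi, ← Finset.prod_mul_distrib]
  apply Finset.prod_congr rfl
  intro j _
  rw [← pow_add, h0]
  by_cases hj : j = i
  · subst hj
    rw [Function.update_self, ZMod.val_natCast, Nat.mod_eq_of_lt ha]
    simp only [if_true]
    rw [add_comm]
    simp
  · rw [Function.update_of_ne (fun h => hj (Fin.succ_injective _ h))]
    simp [hj]

private lemma RomP_size (T M Q : ℕ) [NeZero M] (q : Fin T → ℕ) (hQ : ∀ j, q j ≤ Q) (hQ1 : 1 ≤ Q)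
    (x : Fin (T + 1) → ZMod M) : mlt q x ≤ Q ^ (T * M ^ 2) := by
  unfold mlt
  calc ∏ j : Fin T, q j ^ ((x j.succ).val + M * (x 0).val) ≤ ∏ _j : Fin T, Q ^ (M ^ 2) := by
        apply Finset.prod_le_prod'
        intro j _
        refine le_trans (Nat.pow_le_pow_left (hQ j) _) (Nat.pow_le_pow_right hQ1 ?_)
        have ha := ZMod.val_lt (x j.succ)
        have hb := ZMod.val_lt (x 0)
        nlinarith
    _ = Q ^ (T * M ^ 2) := by
        rw [Finset.prod_const, Finset.card_univ, Fintype.card_fin, ← pow_mul, mul_comm]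

private lemma RomP_asym (A C L η : ℝ) (hA : 0 ≤ A) (hη : 0 < η) (hC : 0 < C) :
    ∃ N1 : ℕ, ∀ N : ℕ, N1 ≤ N →
      A * (1 + Real.log ((4 * (N : ℝ)) ^ 3)) ^ C + L ≤ η * N := by
  have hc : 0 < η / 2 / (A * 4 ^ C + 1) := by positivity
  have hlo := (isLittleO_log_rpow_rpow_atTop C (zero_lt_one (α := ℝ))).def hc
  have hlo2 := tendsto_natCast_atTop_atTop.eventually hlo
  have hl1 : ∀ᶠ N : ℕ in Filter.atTop, (200 : ℝ) ≤ (N : ℝ) :=
    tendsto_natCast_atTop_atTop.eventually (Filter.eventually_ge_atTop _)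
  have hl2 : ∀ᶠ N : ℕ in Filter.atTop, 2 * L / η ≤ (N : ℝ) :=
    tendsto_natCast_atTop_atTop.eventually (Filter.eventually_ge_atTop _)
  have hall := hlo2.and (hl1.and hl2)
  rw [Filter.eventually_atTop] at hall
  obtain ⟨N1, hN1⟩ := hall
  refine ⟨N1, fun N hN => ?_⟩
  obtain ⟨g1, g2, g3⟩ := hN1 N hN
  have hx0 : (0 : ℝ) < N := by linarith
  have hlog : 0 ≤ Real.log (N : ℝ) := Real.log_nonneg (by linarith)
  rw [Real.rpow_one, Real.norm_of_nonneg (Real.rpow_nonneg hlog _), Real.norm_of_nonneg hx0.le] at g1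
  have hb : 1 + Real.log ((4 * (N : ℝ)) ^ 3) ≤ 4 * Real.log N := by
    have e1 : 1 + Real.log ((4 * (N : ℝ)) ^ 3) = Real.log (Real.exp 1 * (4 * (N : ℝ)) ^ 3) := by
      rw [Real.log_mul (Real.exp_ne_zero _) (by positivity), Real.log_exp]
    have e2 : 4 * Real.log (N : ℝ) = Real.log ((N : ℝ) ^ 4) := by
      rw [Real.log_pow]; norm_num
    rw [e1, e2]
    apply Real.log_le_log (by positivity)
    have he : Real.exp 1 ≤ 3 := le_trans Real.exp_one_lt_d9.le (by norm_num)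
    calc Real.exp 1 * (4 * (N : ℝ)) ^ 3 ≤ 3 * (4 * (N : ℝ)) ^ 3 := by
          apply mul_le_mul_of_nonneg_right he (by positivity)
      _ = 192 * (N : ℝ) ^ 3 := by ring
      _ ≤ (N : ℝ) * (N : ℝ) ^ 3 := by
          apply mul_le_mul_of_nonneg_right (by linarith) (by positivity)
      _ = (N : ℝ) ^ 4 := by ring
  have hb0 : 0 ≤ 1 + Real.log ((4 * (N : ℝ)) ^ 3) := by
    have : 0 ≤ Real.log ((4 * (N : ℝ)) ^ 3) := Real.log_nonneg (one_le_pow₀ (by linarith))
    linarith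
  have hb2 : (1 + Real.log ((4 * (N : ℝ)) ^ 3)) ^ C ≤ 4 ^ C * Real.log N ^ C := by
    rw [← Real.mul_rpow (by norm_num) hlog]
    exact Real.rpow_le_rpow hb0 hb hC.le
  have h4 : (0 : ℝ) < 4 ^ C := by positivity
  have hb3 : A * (1 + Real.log ((4 * (N : ℝ)) ^ 3)) ^ C ≤ η / 2 * N := by
    calc A * (1 + Real.log ((4 * (N : ℝ)) ^ 3)) ^ C ≤ A * (4 ^ C * Real.log N ^ C) := by
          apply mul_le_mul_of_nonneg_left hb2 hA
      _ ≤ A * (4 ^ C * (η / 2 / (A * 4 ^ C + 1) * N)) := by gcongr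
      _ = (A * 4 ^ C / (A * 4 ^ C + 1)) * (η / 2 * N) := by ring
      _ ≤ 1 * (η / 2 * N) := by
          apply mul_le_mul_of_nonneg_right _ (by positivity)
          rw [div_le_one (by positivity)]
          linarith
      _ = η / 2 * N := one_mul _
  have hb4 : L ≤ η / 2 * N := by
    rw [div_le_iff₀ hη] at g3
    linarith
  linarith

private lemma RomP_cop (w Z D p : ℕ) (hp : p.Prime) (hpw : p ≤ w) (hD : D ∣ PZ w Z) : Nat.Coprime p D := by
  rw [hp.coprime_iff_not_dvd]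
  intro h
  have h2 : p ∣ PZ w Z := dvd_trans h hD
  unfold PZ at h2
  obtain ⟨r, hr, hpr⟩ := (hp.prime.dvd_finsetProd_iff _).mp h2
  simp only [Finset.mem_filter, Finset.mem_Ioc] at hr
  have := (Nat.prime_dvd_prime_iff_eq hp hr.2).mp hpr
  omega

theorem pRomP (h1 : ExpStmt) (h2 : TotStmt) (h3 : OrdStmt) (h4 : RlgStmt) (h5 : RmfStmt) :
    RomP2Stmt := by
  classical
  intro T q hq C η hC hη
  have h5' := fun i : Fin T => h5 C (η / 4) (q i) hC (by positivity) (hq i)
  choose W hW using h5'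
  obtain ⟨B, hB, hTot⟩ := h2 C hC
  refine ⟨∑ i, W i + ∑ i, q i, fun w hw => ?_⟩
  have hwW : ∀ i, W i ≤ w := fun i => by
    have := Finset.single_le_sum (f := W) (fun _ _ => Nat.zero_le _) (Finset.mem_univ i)
    omega
  have hwq : ∀ i, q i ≤ w := fun i => by
    have := Finset.single_le_sum (f := q) (fun _ _ => Nat.zero_le _) (Finset.mem_univ i)
    omega
  obtain ⟨Q, hQdef⟩ : ∃ Q : ℕ, Q = ∑ i, q i + 2 := ⟨_, rfl⟩
  have hQ : ∀ i, q i ≤ Q := fun i => by
    have := Finset.single_le_sum (f := q) (fun _ _ => Nat.zero_le _) (Finset.mem_univ i)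
    omega
  have hQ1 : 1 ≤ Q := by omega
  have hlogQ : 0 ≤ Real.log (Q : ℝ) := Real.log_nonneg (by exact_mod_cast hQ1)
  have hlog2 : 0 < Real.log 2 := Real.log_pos (by norm_num)
  obtain ⟨L, hLdef⟩ : ∃ L : ℝ, L = C * (T * Real.log Q / Real.log 2) := ⟨_, rfl⟩
  have hL : 0 ≤ L := by rw [hLdef]; positivity
  obtain ⟨N1, hN1⟩ := RomP_asym (2 * B) C (2 * L) (η / 2) (by positivity) (by positivity) hC
  refine ⟨max N1 (⌈2 * L⌉₊ + 1), ?_⟩
  intro N M _ hN hNM hM4 i u v
  have hN1' := hN1 N (le_trans (le_max_left _ _) hN)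
  have hNc : ⌈2 * L⌉₊ + 1 ≤ N := le_trans (le_max_right _ _) hN
  have hNL : 2 * L ≤ N := le_trans (Nat.le_ceil _) (by exact_mod_cast (by omega : ⌈2 * L⌉₊ ≤ N))
  have hN0 : (0 : ℝ) < N := by exact_mod_cast (by omega : 0 < N)
  have hNM' : (N : ℝ) < M := by exact_mod_cast hNM
  have hM0 : (0 : ℝ) < M := by linarith
  have hM4' : (M : ℝ) ≤ 4 * N := by exact_mod_cast hM4
  have hM2 : 2 ≤ M := by omega
  have hZ2 : 2 ≤ M ^ 3 := le_trans hM2 (Nat.le_self_pow (by norm_num) M)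
  obtain ⟨K2, hK2⟩ : ∃ K2 : ℕ, K2 =
    ∏ j : Fin T, q j ^ ((if j = i then 0 else (v j.succ).val) + M * (v 0).val) := ⟨_, rfl⟩
  have hmlt : ∀ a ∈ range N, mlt q (Function.update v i.succ ((a : ℕ) : ZMod M)) = K2 * q i ^ a := by
    intro a ha
    rw [hK2]
    exact RomP_mlt T M q v i a (by have := Finset.mem_range.mp ha; omega)
  -- the constant E
  have hLM : 2 * L / M ≤ 1 := by
    rw [div_le_one hM0]; linarith
  have hLM0 : 0 ≤ 2 * L / M := by positivity
  have hexp : Real.exp (L / M) ≤ 1 + 2 * L / M := by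
    have h := Real.abs_exp_sub_one_le (x := L / M) (by
      rw [abs_of_nonneg (by positivity)]
      rw [div_le_one hM0]; linarith)
    rw [abs_of_nonneg (by positivity : 0 ≤ L / M)] at h
    have h' := (abs_le.mp h).2
    have : 2 * L / M = 2 * (L / M) := by ring
    linarith
  have hEx : ∀ a ∈ range N, 1 ≤ Nat.dist (mlt q u) (K2 * q i ^ a) →
      Real.exp (C * (Real.log (Nat.dist (mlt q u) (K2 * q i ^ a) : ℕ) / Real.log 2) / ((M ^ 3 : ℕ) : ℝ)) ≤
        1 + 2 * L / M := by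
    intro a ha hn
    refine le_trans (Real.exp_le_exp.mpr ?_) hexp
    have s1 : Nat.dist (mlt q u) (K2 * q i ^ a) ≤ Q ^ (T * M ^ 2) := by
      rw [← hmlt a ha]
      have t1 := RomP_size T M Q q hQ hQ1 u
      have t2 := RomP_size T M Q q hQ hQ1 (Function.update v i.succ ((a : ℕ) : ZMod M))
      unfold Nat.dist
      omega
    have s2 : Real.log (Nat.dist (mlt q u) (K2 * q i ^ a) : ℕ) ≤ (T * M ^ 2 : ℕ) * Real.log Q := by
      rw [← Real.log_pow]
      apply Real.log_le_log (by exact_mod_cast hn)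
      exact_mod_cast s1
    calc C * (Real.log (Nat.dist (mlt q u) (K2 * q i ^ a) : ℕ) / Real.log 2) / ((M ^ 3 : ℕ) : ℝ)
        ≤ C * (((T * M ^ 2 : ℕ) * Real.log Q) / Real.log 2) / ((M ^ 3 : ℕ) : ℝ) := by gcongr
      _ = L / M := by
          rw [hLdef]
          push_cast
          field_simp
  -- the bound of a term
  have hterm : ∀ a ∈ range N,
      (if Function.update v i.succ ((a : ℕ) : ZMod M) ≠ u then
        sing C w (Nat.dist (mlt q u) (mlt q (Function.update v i.succ ((a : ℕ) : ZMod M)))) - 1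
      else 0) ≤ 2 * (∑ D ∈ ((PZ w (M ^ 3)).divisors.filter (fun D => D ≠ 1)).filter
          (fun D => D ∣ Nat.dist (mlt q u) (K2 * q i ^ a)), C ^ om D / (D : ℝ)) + 2 * L / M := by
    intro a ha
    have hS : 0 ≤ ∑ D ∈ ((PZ w (M ^ 3)).divisors.filter (fun D => D ≠ 1)).filter
          (fun D => D ∣ Nat.dist (mlt q u) (K2 * q i ^ a)), C ^ om D / (D : ℝ) :=
      Finset.sum_nonneg (fun D _ => by positivity)
    rw [hmlt a ha]
    split_ifs
    · have := RomP_term h1 h4 C hC w (M ^ 3) (Nat.dist (mlt q u) (K2 * q i ^ a)) (by omega)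
        (1 + 2 * L / M) (by linarith) (hEx a ha)
      nlinarith
    · positivity
  refine le_trans (Finset.sum_le_sum hterm) ?_
  rw [Finset.sum_add_distrib, ← Finset.mul_sum, Finset.sum_const, Finset.card_range, nsmul_eq_mul]
  have hNLM : (N : ℝ) * (2 * L / M) ≤ 2 * L := by
    rw [mul_div_assoc', div_le_iff₀ hM0]
    nlinarith
  -- the sum over a
  have hswap : ∑ a ∈ range N, (∑ D ∈ ((PZ w (M ^ 3)).divisors.filter (fun D => D ≠ 1)).filter
          (fun D => D ∣ Nat.dist (mlt q u) (K2 * q i ^ a)), C ^ om D / (D : ℝ)) =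
      ∑ D ∈ (PZ w (M ^ 3)).divisors.filter (fun D => D ≠ 1), C ^ om D / (D : ℝ) *
        (((range N).filter (fun a => D ∣ Nat.dist (mlt q u) (K2 * q i ^ a))).card : ℝ) := by
    have : ∀ a ∈ range N, (∑ D ∈ ((PZ w (M ^ 3)).divisors.filter (fun D => D ≠ 1)).filter
          (fun D => D ∣ Nat.dist (mlt q u) (K2 * q i ^ a)), C ^ om D / (D : ℝ)) =
        ∑ D ∈ (PZ w (M ^ 3)).divisors.filter (fun D => D ≠ 1),
          if D ∣ Nat.dist (mlt q u) (K2 * q i ^ a) then C ^ om D / (D : ℝ) else 0 := by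
      intro a _
      rw [Finset.sum_filter]
    rw [Finset.sum_congr rfl this, Finset.sum_comm]
    apply Finset.sum_congr rfl
    intro D _
    rw [← Finset.sum_filter, Finset.sum_const, nsmul_eq_mul, mul_comm]
  rw [hswap]
  have hcount : ∀ D ∈ (PZ w (M ^ 3)).divisors.filter (fun D => D ≠ 1), C ^ om D / (D : ℝ) *
        (((range N).filter (fun a => D ∣ Nat.dist (mlt q u) (K2 * q i ^ a))).card : ℝ) ≤
      N * (C ^ om D / ((D : ℝ) * (orderOf ((q i : ℕ) : ZMod D) : ℝ))) + C ^ om D / (D : ℝ) := by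
    intro D hD
    have hDd : D ∣ PZ w (M ^ 3) := Nat.dvd_of_mem_divisors (Finset.mem_filter.mp hD).1
    have hD1 : 1 ≤ D := Nat.pos_of_mem_divisors (Finset.mem_filter.mp hD).1
    have hc1 : Nat.Coprime (q i) D := RomP_cop w (M ^ 3) D (q i) (hq i) (hwq i) hDd
    have hc2 : Nat.Coprime K2 D := by
      rw [hK2]
      apply Nat.Coprime.prod_left
      intro j _
      exact Nat.Coprime.pow_left _ (RomP_cop w (M ^ 3) D (q j) (hq j) (hwq j) hDd)
    have hh := h3 (q i) D (mlt q u) K2 N hD1 hc1 hc2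
    have hcD : 0 ≤ C ^ om D / (D : ℝ) := by positivity
    calc C ^ om D / (D : ℝ) *
        (((range N).filter (fun a => D ∣ Nat.dist (mlt q u) (K2 * q i ^ a))).card : ℝ)
        ≤ C ^ om D / (D : ℝ) * ((N : ℝ) / (orderOf ((q i : ℕ) : ZMod D)) + 1) :=
          mul_le_mul_of_nonneg_left hh hcD
      _ = N * (C ^ om D / ((D : ℝ) * (orderOf ((q i : ℕ) : ZMod D) : ℝ))) + C ^ om D / (D : ℝ) := by
          rw [mul_add, mul_one, div_mul_div_comm, mul_comm (C ^ om D) (N : ℝ), mul_div_assoc]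
  have hsum1 := Finset.sum_le_sum hcount
  rw [Finset.sum_add_distrib, ← Finset.mul_sum] at hsum1
  have hr := hW i w (hwW i) (M ^ 3)
  have htot : ∑ D ∈ (PZ w (M ^ 3)).divisors.filter (fun D => D ≠ 1), C ^ om D / (D : ℝ) ≤
      B * (1 + Real.log ((4 * (N : ℝ)) ^ 3)) ^ C := by
    calc ∑ D ∈ (PZ w (M ^ 3)).divisors.filter (fun D => D ≠ 1), C ^ om D / (D : ℝ)
        ≤ ∑ D ∈ (PZ w (M ^ 3)).divisors, C ^ om D / (D : ℝ) :=
          Finset.sum_le_sum_of_subset_of_nonneg (Finset.filter_subset _ _)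
            (fun D _ _ => by positivity)
      _ = ∏ p ∈ (Ioc w (M ^ 3)).filter Nat.Prime, (1 + C / (p : ℝ)) := (h1.2 C w (M ^ 3)).symm
      _ ≤ B * (1 + Real.log ((M ^ 3 : ℕ) : ℝ)) ^ C := hTot w (M ^ 3) hZ2
      _ ≤ B * (1 + Real.log ((4 * (N : ℝ)) ^ 3)) ^ C := by
          have hM1 : (1 : ℝ) ≤ M := by exact_mod_cast (by omega : 1 ≤ M)
          have e0 : 0 ≤ Real.log ((M ^ 3 : ℕ) : ℝ) := by
            apply Real.log_nonneg
            push_cast
            exact one_le_pow₀ hM1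
          have e1 : Real.log ((M ^ 3 : ℕ) : ℝ) ≤ Real.log ((4 * (N : ℝ)) ^ 3) := by
            apply Real.log_le_log (by positivity)
            push_cast
            gcongr
          gcongr
  have hNr := mul_le_mul_of_nonneg_left hr hN0.le
  have : 2 * (N * (η / 4) + B * (1 + Real.log ((4 * (N : ℝ)) ^ 3)) ^ C) + 2 * L ≤ η * N := by
    nlinarith
  linarith

end Pool.Agent.Lib.MP_9f2731_nt.GP.Rom
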