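import Pool.Agent.Lib.MP_9f2731_nt.GP.Rom.Spec

/-!
MP_9f2731_nt, GP/Rom, module Tot: an upper bound of the Euler product over all primes in (w,Z].
-/

set_option autoImplicit false

namespace Pool.Agent.Lib.MP_9f2731_nt.GP.Rom

open Finset

theorem pTot : TotStmt := by
  intro C hC
  obtain ⟨C0, hC0, h⟩ := Pool.Agent.Lib.MP_aa9ae4_nt.sum_inv_primes_le
  refine ⟨Real.exp (C * C0), Real.exp_pos _, fun w Z hZ => ?_⟩
  have h1 := h Z hZ
  have hlZ : 0 ≤ Real.log Z := Real.log_natCast_nonneg Z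
  have hpos : 0 < Real.log Z + 1 := by linarith
  have h2 : ∏ p ∈ (Ioc w Z).filter Nat.Prime, (1 + C / (p : ℝ)) ≤
      ∏ p ∈ (Ioc w Z).filter Nat.Prime, Real.exp (C / (p : ℝ)) := by
    refine Finset.prod_le_prod (fun p _ => by positivity) fun p _ => ?_
    have := Real.add_one_le_exp (C / (p : ℝ))
    linarith
  have h3 : ∑ p ∈ (Ioc w Z).filter Nat.Prime, (1 : ℝ) / p ≤
      ∑ p ∈ (Icc 1 Z).filter Nat.Prime, (1 : ℝ) / p := by
    refine Finset.sum_le_sum_of_subset_of_nonneg ?_ fun p _ _ => by positivity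
    intro p hp
    rw [Finset.mem_filter, Finset.mem_Ioc] at hp
    rw [Finset.mem_filter, Finset.mem_Icc]
    exact ⟨⟨hp.2.one_lt.le, hp.1.2⟩, hp.2⟩
  rw [← Real.exp_sum] at h2
  refine h2.trans ?_
  have h4 : ∑ p ∈ (Ioc w Z).filter Nat.Prime, C / (p : ℝ) =
      C * ∑ p ∈ (Ioc w Z).filter Nat.Prime, (1 : ℝ) / p := by
    rw [Finset.mul_sum]
    exact Finset.sum_congr rfl fun p _ => by ring
  have h5 : ∑ p ∈ (Ioc w Z).filter Nat.Prime, C / (p : ℝ) ≤
      C * (Real.log (Real.log Z + 1) + C0) := by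
    rw [h4]
    exact mul_le_mul_of_nonneg_left (h3.trans h1) hC.le
  refine (Real.exp_le_exp.2 h5).trans (le_of_eq ?_)
  rw [add_comm (1 : ℝ), Real.rpow_def_of_pos hpos, ← Real.exp_add]
  congr 1
  ring

end Pool.Agent.Lib.MP_9f2731_nt.GP.Rom
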