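import Pool.Agent.Lib.MP_9f2731_nt.GP.Rom.Exp
import Pool.Agent.Lib.MP_9f2731_nt.GP.Rom.Tot
import Pool.Agent.Lib.MP_9f2731_nt.GP.Rom.Ord
import Pool.Agent.Lib.MP_9f2731_nt.GP.Rom.Rlg
import Pool.Agent.Lib.MP_9f2731_nt.GP.Rom.Rmf
import Pool.Agent.Lib.MP_9f2731_nt.GP.Rom.RomP
import Pool.Agent.Lib.MP_9f2731_nt.GP.Rom.Lcm
import Pool.Agent.Lib.MP_9f2731_nt.GP.Rom.Cnb
import Pool.Agent.Lib.MP_9f2731_nt.GP.Rom.Mom

/-!
MP_9f2731_nt, GP/Rom: the Romanoff type mean value and the moments of the majorant.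
-/

namespace Pool.Agent.Lib.MP_9f2731_nt.GP.Rom

theorem romAll : RomPStmt :=
  pRomP pExp pTot pOrd pRlg (pRmf pExp pTot pRlg)

theorem momAll : MomStmt :=
  pMom pTot (pLcm pExp) pCnb

end Pool.Agent.Lib.MP_9f2731_nt.GP.Rom
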