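import Pool.Agent.Lib.MP_9f2731_nt.GP.Rom.Spec

/-!
MP_9f2731_nt, GP/Rom, module Exp: expansion of an Euler product over the divisors of a primorial.
-/

set_option autoImplicit false

namespace Pool.Agent.Lib.MP_9f2731_nt.GP.Rom

open Finset

private theorem exp_sqf {Q : Finset ℕ} (hQ : ∀ p ∈ Q, Nat.Prime p) : Squarefree (∏ p ∈ Q, p) := by
  apply Finset.squarefree_prod_of_pairwise_isCoprime
  · intro p hp q hq hpq
    exact Nat.coprime_iff_isRelPrime.1 ((Nat.coprime_primes (hQ p hp) (hQ q hq)).2 hpq)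
  · intro p hp
    exact (hQ p hp).prime.squarefree

private theorem exp_gen (C : ℝ) {Q : Finset ℕ} (hQ : ∀ p ∈ Q, Nat.Prime p) :
    ∏ p ∈ Q, (1 + C / (p : ℝ)) = ∑ D ∈ (∏ p ∈ Q, p).divisors, C ^ om D / (D : ℝ) := by
  rw [Finset.prod_one_add]
  have hne : (∏ p ∈ Q, p) ≠ 0 := Finset.prod_ne_zero_iff.2 fun p hp => (hQ p hp).ne_zero
  refine Finset.sum_nbij' (fun S => ∏ p ∈ S, p) (fun D => D.primeFactors) ?_ ?_ ?_ ?_ ?_
  · intro S hS
    rw [Finset.mem_powerset] at hS
    exact Nat.mem_divisors.2 ⟨Finset.prod_dvd_prod_of_subset _ _ _ hS, hne⟩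
  · intro D hD
    rw [Finset.mem_powerset]
    have h1 := Nat.primeFactors_mono (Nat.mem_divisors.1 hD).1 hne
    rwa [Nat.primeFactors_prod hQ] at h1
  · intro S hS
    rw [Finset.mem_powerset] at hS
    exact Nat.primeFactors_prod fun p hp => hQ p (hS hp)
  · intro D hD
    exact Nat.prod_primeFactors_of_squarefree
      ((exp_sqf hQ).squarefree_of_dvd (Nat.mem_divisors.1 hD).1)
  · intro S hS
    rw [Finset.mem_powerset] at hS
    have h1 : om (∏ p ∈ S, p) = S.card := by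
      unfold om
      rw [Nat.primeFactors_prod fun p hp => hQ p (hS hp)]
    rw [h1, Finset.prod_div_distrib, Finset.prod_const]
    push_cast
    rfl

private theorem exp_div (w Z n : ℕ) (hn : n ≠ 0) :
    (∏ p ∈ n.primeFactors.filter (fun p => w < p ∧ p ≤ Z), p).divisors =
      (PZ w Z).divisors.filter (fun D => D ∣ n) := by
  have hQ : ∀ p ∈ n.primeFactors.filter (fun p => w < p ∧ p ≤ Z), Nat.Prime p := fun p hp =>
    Nat.prime_of_mem_primeFactors (Finset.mem_filter.1 hp).1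
  have hP : ∀ p ∈ (Ioc w Z).filter Nat.Prime, Nat.Prime p := fun p hp =>
    (Finset.mem_filter.1 hp).2
  have hsub : n.primeFactors.filter (fun p => w < p ∧ p ≤ Z) ⊆ (Ioc w Z).filter Nat.Prime := by
    intro p hp
    rw [Finset.mem_filter] at hp
    rw [Finset.mem_filter, Finset.mem_Ioc]
    exact ⟨hp.2, Nat.prime_of_mem_primeFactors hp.1⟩
  have hne : (∏ p ∈ n.primeFactors.filter (fun p => w < p ∧ p ≤ Z), p) ≠ 0 :=
    Finset.prod_ne_zero_iff.2 fun p hp => (hQ p hp).ne_zero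
  have hPne : PZ w Z ≠ 0 := Finset.prod_ne_zero_iff.2 fun p hp => (hP p hp).ne_zero
  ext D
  rw [Finset.mem_filter, Nat.mem_divisors, Nat.mem_divisors]
  constructor
  · rintro ⟨h, -⟩
    refine ⟨⟨h.trans (Finset.prod_dvd_prod_of_subset _ _ _ hsub), hPne⟩, h.trans ?_⟩
    exact (Finset.prod_dvd_prod_of_subset _ _ _ (Finset.filter_subset _ _)).trans
      (Nat.prod_primeFactors_dvd n)
  · rintro ⟨⟨h1, -⟩, h2⟩
    refine ⟨?_, hne⟩
    have hsq : Squarefree D := (exp_sqf hP).squarefree_of_dvd h1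
    rw [← Nat.prod_primeFactors_of_squarefree hsq]
    apply Finset.prod_dvd_prod_of_subset
    intro p hp
    have a1 := Nat.primeFactors_mono h1 hPne hp
    rw [PZ, Nat.primeFactors_prod hP, Finset.mem_filter, Finset.mem_Ioc] at a1
    rw [Finset.mem_filter]
    exact ⟨Nat.primeFactors_mono h2 hn hp, a1.1⟩

theorem pExp : ExpStmt := by
  refine ⟨fun C w Z n hn => ?_, fun C w Z => ?_⟩
  · rw [exp_gen C (fun p hp => Nat.prime_of_mem_primeFactors (Finset.mem_filter.1 hp).1),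
      exp_div w Z n hn]
  · exact exp_gen C fun p hp => (Finset.mem_filter.1 hp).2

end Pool.Agent.Lib.MP_9f2731_nt.GP.Rom
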